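import Pool.Agent.Lib.MP_29ee6d_gt.Alt
import Pool.Agent.Lib.MP_29ee6d_gt.Br

/-!
# MP_29ee6d_gt: the dealternating number and decompositions into alternating tangles
-/

set_option autoImplicit false

namespace Pool.Agent.Results.MP_29ee6d_gt.SwingBound

open MPdalt

/-- Let the closed word `D` (a diagram of the link `L`) have cost at most `k` (see `Cost`: `D` is
cut by disjoint or nested discs whose boundaries meet `D` in `2 m_i` points, such that `D` becomes
alternating if the signs of all crossings inside of each disc are flipped, `k = ∑ (m_i - 1)`). Then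
`dalt(L) ≤ k`. If moreover `k` is at most the Turaev genus `(2 + c(D) - s_A(D) - s_B(D)) / 2` of `D`,
then `4 dalt(L)` plus the difference of two exponents of the Kauffman bracket is at most `4 c(D)`, that is
`dalt(L) + span V_L ≤ c(D)`. -/
theorem result (D : List Ev) (t : Bool) (k : ℕ) (h : Cost 0 D 0 t k) :
    dalt D ≤ k ∧
    (2 * k + circles D (crs D) + circles D ∅ ≤ ncr D + 2 →
      ∀ e e' : ℤ, (bracket D).coeff e ≠ 0 → (bracket D).coeff e' ≠ 0 →
        4 * (dalt D : ℤ) + (e - e') ≤ 4 * ncr D) := by
  have hd := dalt_le_cost h
  refine ⟨hd, fun hk e e' he he' => ?_⟩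
  rcases eq_or_ne D [] with rfl | hne
  · have h1 : dalt [] = 0 := Nat.le_zero.1 (dalt_le_cost (Cost.nil 0 true))
    have h2 : ∀ e : ℤ, (bracket []).coeff e ≠ 0 → e = 0 := by
      intro e he
      have h3 : bracket [] = LaurentPolynomial.T 0 := by
        have h4 : crs [] = ∅ := by
          unfold crs
          simp
        have h5 : circles [] ∅ = 0 := by
          unfold circles
          have h6 : IsEmpty {P : ℕ × ℕ // P.1 ≤ ([] : List Ev).length ∧ P.2 < wd [] P.1} := by
            constructor
            rintro ⟨⟨a, b⟩, h7, h8⟩
            have h9 : wd [] a = 0 := by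
              unfold wd
              simp
            rw [h9] at h8
            exact absurd h8 (Nat.not_lt_zero _)
          have h10 : IsEmpty (Quot fun P Q : {P : ℕ × ℕ // P.1 ≤ ([] : List Ev).length ∧ P.2 < wd [] P.1} =>
              SAdj [] ∅ P.1 Q.1) := by
            constructor
            intro q
            induction q using Quot.ind with
            | mk x => exact h6.false x
          exact Nat.card_of_isEmpty
        unfold bracket
        rw [h4, Finset.powerset_empty, Finset.sum_singleton, h5]
        simp
      rw [h3, LaurentPolynomial.T_apply] at he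
      by_contra h7
      exact he (if_neg fun h8 => h7 h8.symm)
    rw [h2 e he, h2 e' he', h1]
    simp [ncr]
  · have hb := bracket_bd (cost_word h) hne
    have h1 := (hb e he).2
    have h2 := (hb e' he').1
    have h3 : (dalt D : ℤ) ≤ k := by exact_mod_cast hd
    have h4 : (2 * k + circles D (crs D) + circles D ∅ : ℤ) ≤ ncr D + 2 := by exact_mod_cast hk
    linarith

end Pool.Agent.Results.MP_29ee6d_gt.SwingBound
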